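import Pool.Agent.H82.AS.Targets

/-!
# The number of integers with a given radical
-/

open Finset

namespace Pool.Agent.H14.AS

open Pool.Agent.H38.RB Pool.Agent.H38.PS Pool.Agent.H82.AS

theorem geom_le {q : ℝ} (hq0 : 0 ≤ q) (hq1 : q < 1) (A : ℕ) :
    ∑ a ∈ Icc 1 A, q ^ a ≤ q / (1 - q) := by
  have h1 : ∑ a ∈ Icc 1 A, q ^ a = q * ∑ a ∈ range A, q ^ a := by
    rw [mul_sum, range_eq_Ico, ← Finset.Ico_succ_right_eq_Icc]
    rw [sum_Ico_eq_sum_range, sum_Ico_eq_sum_range]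
    refine sum_congr (by simp) fun a _ => ?_
    rw [zero_add, pow_add, pow_one]
  have h2 := geom_sum_mul_neg q A
  have h3 : 0 < 1 - q := by linarith
  rw [h1, le_div_iff₀ h3, mul_assoc, h2]
  have h4 : 0 ≤ q ^ A := pow_nonneg hq0 A
  nlinarith

theorem rankin (S : Finset ℕ) (hS : ∀ p ∈ S, p.Prime) (ε : ℝ) (hε : 0 < ε) (F : Finset ℕ)
    (hF : ∀ n ∈ F, 1 ≤ n ∧ n.primeFactors = S) :
    ∑ n ∈ F, (n : ℝ) ^ (-ε) ≤ ∏ p ∈ S, 1 / ((p : ℝ) ^ ε - 1) := by
  classical
  let A : ℕ := F.sup id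
  let v : ℕ → (S → ℕ) := fun n i => n.factorization i
  have hprod : ∀ n ∈ F, ∏ i : S, (i : ℕ) ^ (v n i) = n := by
    intro n hn
    have h1 := Nat.prod_factorization_pow_eq_self (n := n) (by have := (hF n hn).1; omega)
    rw [Finsupp.prod, Nat.support_factorization, (hF n hn).2] at h1
    rw [← prod_coe_sort S (fun p => p ^ n.factorization p)] at h1
    exact h1
  have hinj : Set.InjOn v F := by
    intro n hn m hm h
    rw [← hprod n hn, ← hprod m hm, h]
  have hterm : ∀ n ∈ F, (n : ℝ) ^ (-ε) = ∏ i : S, (((i : ℕ) : ℝ) ^ (-ε)) ^ (v n i) := by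
    intro n hn
    have h1 : (n : ℝ) = ∏ i : S, (((i : ℕ) : ℝ)) ^ (v n i) := by
      have h2 := congrArg (Nat.cast : ℕ → ℝ) (hprod n hn)
      push_cast at h2
      exact h2.symm
    rw [h1, ← Real.finsetProd_rpow _ _ (fun i _ => by positivity)]
    refine prod_congr rfl fun i _ => ?_
    rw [← Real.rpow_natCast, ← Real.rpow_natCast, ← Real.rpow_mul (by positivity),
      ← Real.rpow_mul (by positivity), mul_comm]
  have hmem : ∀ n ∈ F, v n ∈ Fintype.piFinset (fun _ : S => Icc 1 A) := by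
    intro n hn
    rw [Fintype.mem_piFinset]
    intro i
    rw [mem_Icc]
    have hi : (i : ℕ) ∈ n.primeFactors := by rw [(hF n hn).2]; exact i.2
    constructor
    · exact (Nat.mem_primeFactors.mp hi).1.factorization_pos_of_dvd (by have := (hF n hn).1; omega)
        (Nat.mem_primeFactors.mp hi).2.1
    · have h1 : n.factorization (i : ℕ) < n :=
        Nat.factorization_lt _ (by have := (hF n hn).1; omega)
      have h2 : n ≤ A := le_sup (f := id) hn
      exact (h1.le).trans h2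
  calc ∑ n ∈ F, (n : ℝ) ^ (-ε) = ∑ n ∈ F, ∏ i : S, (((i : ℕ) : ℝ) ^ (-ε)) ^ (v n i) :=
        sum_congr rfl hterm
    _ = ∑ x ∈ F.image v, ∏ i : S, (((i : ℕ) : ℝ) ^ (-ε)) ^ (x i) := by
        rw [sum_image (fun n hn m hm h => hinj hn hm h)]
    _ ≤ ∑ x ∈ Fintype.piFinset (fun _ : S => Icc 1 A),
          ∏ i : S, (((i : ℕ) : ℝ) ^ (-ε)) ^ (x i) := by
        refine sum_le_sum_of_subset_of_nonneg ?_ (fun x _ _ => by positivity)
        intro x hx
        obtain ⟨n, hn, rfl⟩ := mem_image.mp hx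
        exact hmem n hn
    _ = ∏ i : S, ∑ a ∈ Icc 1 A, (((i : ℕ) : ℝ) ^ (-ε)) ^ a :=
        (prod_univ_sum (fun _ : S => Icc 1 A) (fun i a => (((i : ℕ) : ℝ) ^ (-ε)) ^ a)).symm
    _ ≤ ∏ i : S, 1 / (((i : ℕ) : ℝ) ^ ε - 1) := by
        refine prod_le_prod (fun i _ => by positivity) fun i _ => ?_
        have hp : (2 : ℝ) ≤ ((i : ℕ) : ℝ) := by exact_mod_cast (hS i i.2).two_le
        have h1 : 1 < ((i : ℕ) : ℝ) ^ ε := Real.one_lt_rpow (by linarith) hε
        have h2 : ((i : ℕ) : ℝ) ^ (-ε) < 1 := by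
          rw [Real.rpow_neg (by linarith)]
          exact inv_lt_one_of_one_lt₀ h1
        refine (geom_le (by positivity) h2 A).trans (le_of_eq ?_)
        rw [Real.rpow_neg (by linarith)]
        have h3 : ((i : ℕ) : ℝ) ^ ε ≠ 0 := by positivity
        have h4 : ((i : ℕ) : ℝ) ^ ε - 1 ≠ 0 := by linarith
        field_simp
    _ = ∏ p ∈ S, 1 / ((p : ℝ) ^ ε - 1) :=
        prod_coe_sort S (fun p => 1 / ((p : ℝ) ^ ε - 1))

theorem pf_RDC : T_RDC := by
  classical
  intro ε hε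
  obtain ⟨M, hM⟩ := exists_nat_ge ((2 : ℝ) ^ (1 / ε))
  let K : ℝ := max 1 (1 / ((2 : ℝ) ^ ε - 1))
  have hK1 : 1 ≤ K := le_max_left _ _
  refine ⟨K ^ M, by positivity, fun r W F hW hF => ?_⟩
  rcases F.eq_empty_or_nonempty with rfl | ⟨n0, hn0⟩
  · rw [card_empty]
    push_cast
    positivity
  let S := r.primeFactors
  have hpd : ∀ n : ℕ, (pd n.primeFactors).primeFactors = n.primeFactors := by
    intro n
    rw [pd]
    exact Nat.primeFactors_prod (fun p hp => Nat.prime_of_mem_primeFactors hp)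
  have hFS : ∀ n ∈ F, 1 ≤ n ∧ n.primeFactors = S := by
    intro n hn
    refine ⟨(hF n hn).1, ?_⟩
    show _ = r.primeFactors
    rw [← hpd n, (hF n hn).2.2]
  have h1 := rankin S (fun p hp => Nat.prime_of_mem_primeFactors hp) ε hε F hFS
  have h2 : (F.card : ℝ) ≤ W ^ ε * ∑ n ∈ F, (n : ℝ) ^ (-ε) := by
    rw [mul_sum, ← nsmul_one (F.card), ← sum_const]
    refine sum_le_sum fun n hn => ?_
    have h3 : (1 : ℝ) ≤ n := by exact_mod_cast (hF n hn).1
    have h4 : (n : ℝ) ^ ε ≤ W ^ ε := Real.rpow_le_rpow (by linarith) (hF n hn).2.1 hε.le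
    have h5 : 0 < (n : ℝ) ^ ε := by positivity
    rw [Real.rpow_neg (by linarith), ← div_eq_mul_inv, le_div_iff₀ h5, one_mul]
    exact h4
  have h3 : ∏ p ∈ S, 1 / ((p : ℝ) ^ ε - 1) ≤ K ^ M := by
    have h4 : ∀ p ∈ S, 1 / ((p : ℝ) ^ ε - 1) ≤ (if p < M then K else 1) := by
      intro p hp
      have hp2 : (2 : ℝ) ≤ p := by exact_mod_cast (Nat.prime_of_mem_primeFactors hp).two_le
      have h5 : 1 < (2 : ℝ) ^ ε := Real.one_lt_rpow (by norm_num) hε
      have h6 : (2 : ℝ) ^ ε ≤ (p : ℝ) ^ ε := Real.rpow_le_rpow (by norm_num) hp2 hε.le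
      split_ifs with h
      · refine le_trans ?_ (le_max_right _ _)
        exact one_div_le_one_div_of_le (by linarith) (by linarith)
      · have h7 : (2 : ℝ) ^ (1 / ε) ≤ p := by
          refine hM.trans ?_
          exact_mod_cast not_lt.mp h
        have h8 : (2 : ℝ) ≤ (p : ℝ) ^ ε := by
          calc (2 : ℝ) = ((2 : ℝ) ^ (1 / ε)) ^ ε := by
                rw [← Real.rpow_mul (by norm_num), one_div, inv_mul_cancel₀ hε.ne',
                  Real.rpow_one]
            _ ≤ (p : ℝ) ^ ε := Real.rpow_le_rpow (by positivity) h7 hε.le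
        rw [div_le_one (by linarith)]
        linarith
    have h9 : ∀ p ∈ S, 0 ≤ 1 / ((p : ℝ) ^ ε - 1) := by
      intro p hp
      have hp2 : (2 : ℝ) ≤ p := by exact_mod_cast (Nat.prime_of_mem_primeFactors hp).two_le
      have h5 : 1 < (p : ℝ) ^ ε := Real.one_lt_rpow (by linarith) hε
      have h6 : 0 < (p : ℝ) ^ ε - 1 := by linarith
      positivity
    refine (prod_le_prod h9 h4).trans ?_
    rw [prod_ite, prod_const_one, mul_one, prod_const]
    refine pow_le_pow_right₀ hK1 ?_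
    calc (S.filter (fun p => p < M)).card ≤ (range M).card := by
          refine card_le_card ?_
          intro p hp
          rw [mem_filter] at hp
          exact mem_range.mpr hp.2
      _ = M := card_range M
  have hW' : 0 ≤ W ^ ε := by positivity
  calc (F.card : ℝ) ≤ W ^ ε * ∑ n ∈ F, (n : ℝ) ^ (-ε) := h2
    _ ≤ W ^ ε * K ^ M := mul_le_mul_of_nonneg_left (h1.trans h3) hW'
    _ = K ^ M * W ^ ε := mul_comm _ _

end Pool.Agent.H14.AS
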