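import Pool.Agent.H82.AS.Targets
import Pool.Agent.H30.Vino2.Bounds

/-!
# The divisor bound
-/

namespace Pool.Agent.H14.AS

open Pool.Agent.H38.RB Pool.Agent.H38.PS Pool.Agent.H82.AS

theorem pf_DVB : T_DVB := by
  intro ε hε
  obtain ⟨C, hC, h⟩ := Pool.Agent.H30.Vino2.tau_le 1 ε hε
  exact ⟨C, hC, fun n hn => h n hn n hn (pow_one n).ge⟩

end Pool.Agent.H14.AS
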